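import Pool.Agent.Helper98.EX.Stmts2

/-!
# Existence of cells
-/

namespace Pool.Agent.Helper98.EX

open Finset

theorem cell_aux (α : ℕ → ℝ) (A w : ℕ) (ell amax : ℝ) (h0 : 0 < amax)
    (hell : ((w : ℝ) + 3) * amax ≤ ell) :
    ∀ X : ℕ, A ≤ X → (∀ y, A ≤ y → y < X → 0 ≤ α y ∧ α y ≤ amax) →
    ∃ (M : ℕ) (u : ℕ → ℕ), u 0 = A ∧ u M = X ∧ (1 ≤ M → u 0 < u 1) ∧
      (∀ c, 1 ≤ c → c < M → u c + w + 1 ≤ u (c + 1)) ∧
      (∀ c, 1 ≤ c → c ≤ M → ∑ y ∈ Finset.Ico (u (c - 1)) (u c), α y ≤ ell) ∧
      ((M : ℝ) - 1) * (ell - amax) ≤ ∑ y ∈ Finset.Ico A X, α y := by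
  classical
  have hw : (0 : ℝ) ≤ w := Nat.cast_nonneg _
  have hea : amax ≤ ell := by nlinarith
  intro X
  induction X using Nat.strong_induction_on with
  | _ X ih =>
    intro hAX hα
    rcases Nat.eq_or_lt_of_le hAX with hE | hlt
    · refine ⟨0, fun _ => A, rfl, hE, fun h => absurd h (by norm_num), fun c h1 h2 => ?_,
        fun c h1 h2 => ?_, ?_⟩
      · omega
      · omega
      · subst hE
        simp only [Finset.Ico_self, Finset.sum_empty, Nat.cast_zero]
        linarith
    · have hex : ∃ v, A ≤ v ∧ ∑ y ∈ Finset.Ico v X, α y ≤ ell :=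
        ⟨X, hAX, by simp only [Finset.Ico_self, Finset.sum_empty]; linarith⟩
      have hv := Nat.find_spec hex
      have hmin := fun m => @Nat.find_min _ _ hex m
      set v := Nat.find hex with hvdef
      have hvX : v < X := by
        have h1 : v ≤ X - 1 := by
          apply Nat.find_min' hex
          refine ⟨by omega, ?_⟩
          have e : Finset.Ico (X - 1) X = {X - 1} := by
            ext y
            simp only [Finset.mem_Ico, Finset.mem_singleton]
            omega
          rw [e, Finset.sum_singleton]
          exact ((hα (X - 1) (by omega) (by omega)).2).trans hea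
        omega
      rcases Nat.eq_or_lt_of_le hv.1 with hvA | hvA
      · refine ⟨1, fun c => if c = 0 then A else X, rfl, rfl, fun _ => ?_, fun c h1 h2 => ?_,
          fun c h1 h2 => ?_, ?_⟩
        · show A < X
          exact hlt
        · omega
        · have hc : c = 1 := by omega
          subst hc
          show ∑ y ∈ Finset.Ico A X, α y ≤ ell
          rw [hvA]
          exact hv.2
        · have : 0 ≤ ∑ y ∈ Finset.Ico A X, α y :=
            Finset.sum_nonneg fun y hy => (hα y (Finset.mem_Ico.1 hy).1 (Finset.mem_Ico.1 hy).2).1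
          simpa using this
      · -- the cell is nearly full
        have hbig : ell < ∑ y ∈ Finset.Ico (v - 1) X, α y := by
          have h1 := hmin (v - 1) (by omega)
          by_contra h2
          exact h1 ⟨by omega, not_lt.1 h2⟩
        have hsplit : ∑ y ∈ Finset.Ico (v - 1) X, α y = α (v - 1) + ∑ y ∈ Finset.Ico v X, α y := by
          rw [Finset.sum_eq_sum_Ico_succ_bot (by omega : v - 1 < X)]
          congr 2
          congr 1
          omega
        have hge : ell - amax ≤ ∑ y ∈ Finset.Ico v X, α y := by
          have := (hα (v - 1) (by omega) (by omega)).2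
          linarith
        have hup : ∑ y ∈ Finset.Ico v X, α y ≤ ((X : ℝ) - v) * amax := by
          have h1 : ∑ y ∈ Finset.Ico v X, α y ≤ ∑ _y ∈ Finset.Ico v X, amax := by
            refine Finset.sum_le_sum fun y hy => (hα y ?_ (Finset.mem_Ico.1 hy).2).2
            exact hv.1.trans (Finset.mem_Ico.1 hy).1
          refine h1.trans (le_of_eq ?_)
          rw [Finset.sum_const, Nat.card_Ico, nsmul_eq_mul, Nat.cast_sub hvX.le]
        have hlen : w + 1 ≤ X - v := by
          by_contra hcon
          have h1 : X - v ≤ w := by omega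
          have h2 : (X : ℝ) - v ≤ w := by
            rw [← Nat.cast_sub hvX.le]
            exact_mod_cast h1
          have h3 : ((X : ℝ) - v) * amax ≤ w * amax := mul_le_mul_of_nonneg_right h2 h0.le
          nlinarith
        obtain ⟨M', u', g0, gM, gf, gs, gc, gsum⟩ := ih v hvX hv.1
          (fun y h1 h2 => hα y h1 (h2.trans hvX))
        have hM' : 1 ≤ M' := by
          rcases Nat.eq_zero_or_pos M' with h | h
          · exfalso
            rw [h, g0] at gM
            omega
          · exact h
        refine ⟨M' + 1, fun c => if c ≤ M' then u' c else X, ?_, ?_, fun _ => ?_,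
          fun c h1 h2 => ?_, fun c h1 h2 => ?_, ?_⟩
        · show (if 0 ≤ M' then u' 0 else X) = A
          rw [if_pos (Nat.zero_le _)]
          exact g0
        · show (if M' + 1 ≤ M' then u' (M' + 1) else X) = X
          rw [if_neg (by omega)]
        · show (if 0 ≤ M' then u' 0 else X) < (if 1 ≤ M' then u' 1 else X)
          rw [if_pos (Nat.zero_le _), if_pos hM']
          exact gf hM'
        · show (if c ≤ M' then u' c else X) + w + 1 ≤ (if c + 1 ≤ M' then u' (c + 1) else X)
          rw [if_pos (by omega : c ≤ M')]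
          by_cases h3 : c + 1 ≤ M'
          · rw [if_pos h3]
            exact gs c h1 (by omega)
          · rw [if_neg h3]
            have h4 : c = M' := by omega
            rw [h4, gM]
            omega
        · show ∑ y ∈ Finset.Ico (if c - 1 ≤ M' then u' (c - 1) else X)
            (if c ≤ M' then u' c else X), α y ≤ ell
          rw [if_pos (by omega : c - 1 ≤ M')]
          by_cases h3 : c ≤ M'
          · rw [if_pos h3]
            exact gc c h1 h3
          · rw [if_neg h3]
            have h4 : c - 1 = M' := by omega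
            rw [h4, gM]
            exact hv.2
        · have h5 : ∑ y ∈ Finset.Ico A X, α y
              = ∑ y ∈ Finset.Ico A v, α y + ∑ y ∈ Finset.Ico v X, α y :=
            (Finset.sum_Ico_consecutive _ hv.1 hvX.le).symm
          rw [h5]
          push_cast
          linarith

theorem st_CELL : ST_CELL := by
  intro α A x0 w n ell amax hα h0 hell hw hA hn
  obtain ⟨M, u, g0, gM, gf, gs, gc, gsum⟩ := cell_aux α A w ell amax h0 hell (x0 - 3 * w)
    (by omega) (fun y h1 h2 => hα y h1 (by omega))
  refine ⟨M, u, fun s => ⟨hw, g0, ?_, gf, fun c h1 h2 => gs c h1 h2, hn⟩, gc, ?_⟩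
  · show u M + 3 * w = x0
    rw [gM]
    omega
  · refine gsum.trans ?_
    refine Finset.sum_le_sum_of_subset_of_nonneg ?_ fun y hy _ => ?_
    · exact Finset.Ico_subset_Ico le_rfl (by omega)
    · exact (hα y (Finset.mem_Ico.1 hy).1 (Finset.mem_Ico.1 hy).2).1

end Pool.Agent.Helper98.EX
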